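import Pool.Agent.H65.HeisCurves
import Pool.Agent.H65.HeisGroup

/-!
# MP_6f2a8f_ag, Q1: negative answer

There is a connected complex manifold `X` of dimension three (the quotient of `ℂ³` by the integer
Heisenberg group) such that
* `X` carries a complete Kaehler metric;
* any two points of `X` lie on the image of one holomorphic map `ℂ → X`, and any two points are
  joined by a chain of three closed curves, each of them the image of `ℂˣ` under a holomorphic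
  closed embedding (so `X` is elliptically connected, also by closed non-hyperbolic curves);
* the fundamental group of `X` is not almost abelian.
-/

namespace Pool.Agent.Results.MP_6f2a8f_ag.HeisenbergQuotient

open Manifold ContDiff Bundle Topology Set Pool.Agent.H65

theorem result :
    ∃ (X : Type) (_ : TopologicalSpace X) (_ : ChartedSpace (ℂ × ℂ × ℂ) X) (_ : T3Space X)
      (_ : IsManifold 𝓘(ℝ, ℂ × ℂ × ℂ) ∞ X),
      SecondCountableTopology X ∧ ConnectedSpace X ∧ IsManifold 𝓘(ℂ, ℂ × ℂ × ℂ) ω X ∧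
      (∃ g : ContMDiffRiemannianMetric 𝓘(ℝ, ℂ × ℂ × ℂ) ∞ (ℂ × ℂ × ℂ)
          (fun x : X => TangentSpace 𝓘(ℝ, ℂ × ℂ × ℂ) x),
        IsKahlerMetric g ∧ IsCompleteMetric g) ∧
      (∀ x y : X, ∃ f : ℂ → X, ContMDiff 𝓘(ℂ, ℂ) 𝓘(ℂ, ℂ × ℂ × ℂ) ω f ∧
        x ∈ range f ∧ y ∈ range f) ∧
      (∀ x y : X, ∃ f₁ f₂ f₃ : ℂˣ → X,
        (ContMDiff 𝓘(ℂ, ℂ) 𝓘(ℂ, ℂ × ℂ × ℂ) ω f₁ ∧ IsClosedEmbedding f₁) ∧
        (ContMDiff 𝓘(ℂ, ℂ) 𝓘(ℂ, ℂ × ℂ × ℂ) ω f₂ ∧ IsClosedEmbedding f₂) ∧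
        (ContMDiff 𝓘(ℂ, ℂ) 𝓘(ℂ, ℂ × ℂ × ℂ) ω f₃ ∧ IsClosedEmbedding f₃) ∧
        x ∈ range f₁ ∧ (range f₁ ∩ range f₂).Nonempty ∧ (range f₂ ∩ range f₃).Nonempty ∧
        y ∈ range f₃) ∧
      (∀ x : X, ¬ AlmostAbelian (FundamentalGroup X x)) := by
  refine ⟨Heis.Q, inferInstance, inferInstance, inferInstance, inferInstance, inferInstance,
    inferInstance, inferInstance, ⟨Heis.metricQ, Heis.isKahler_metricQ, Heis.isComplete_metricQ⟩,
    ?_, Heis.exists_chain, fun x => Heis.not_almostAbelian_of_equiv (Heis.piOneEquiv x)⟩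
  intro x y
  refine ⟨fun s => Heis.proj (Heis.base x + s • (Heis.base y - Heis.base x)), ?_, ⟨0, ?_⟩,
    ⟨1, ?_⟩⟩
  · have h : ContDiff ℂ ω (fun s : ℂ => Heis.base x + s • (Heis.base y - Heis.base x)) := by
      fun_prop
    exact Heis.contMDiff_proj_complex.comp h.contMDiff
  · simp [Heis.proj_base]
  · simp [Heis.proj_base]

end Pool.Agent.Results.MP_6f2a8f_ag.HeisenbergQuotient
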